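import Pool.Agent.W633.LT.BC

/-!
# Existence of restrictions
-/

set_option autoImplicit false

namespace Pool.Agent.W101.LG

open W633.LT

section ring

variable (k : Type) [Field k]

lemma torMap_single {b c b' c' : SignType} (hb : Sub b b') (hc : Sub c c')
    (m : Tor b c) (a : k) :
    torMap k hb hc (AddMonoidAlgebra.single m a) =
      AddMonoidAlgebra.single (⟨m.1, Tor_le hb hc m.2⟩ : Tor b' c') a := by
  simp only [torMap, AddMonoidAlgebra.mapDomainRingHom_apply, AddMonoidAlgebra.mapDomain_single]
  rfl

lemma torMap_refl (b c : SignType) : torMap k (Sub.refl b) (Sub.refl c) = RingHom.id _ := by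
  apply AddMonoidAlgebra.ringHom_ext
  · intro a
    rw [torMap_single]
    rfl
  · intro m
    rw [torMap_single]
    rfl

lemma torMap_comp {b c b' c' b'' c'' : SignType} (hb : Sub b b') (hc : Sub c c')
    (hb' : Sub b' b'') (hc' : Sub c' c'') :
    torMap k (hb.trans hb') (hc.trans hc') = (torMap k hb' hc').comp (torMap k hb hc) := by
  apply AddMonoidAlgebra.ringHom_ext
  · intro a
    rw [RingHom.comp_apply, torMap_single, torMap_single, torMap_single]
  · intro m
    rw [RingHom.comp_apply, torMap_single, torMap_single, torMap_single]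

lemma ringMap_single {n : ℤ} {x y : Raw} (h : IsHom n x y) (m : x.mon) (a : k) :
    ringMap k h (Ideal.Quotient.mk _ (AddMonoidAlgebra.single m a)) =
      Ideal.Quotient.mk _ (AddMonoidAlgebra.single (monMap h m) a) := by
  simp only [ringMap, Ideal.quotientMap_mk, AddMonoidAlgebra.mapDomainRingHom_apply,
    AddMonoidAlgebra.mapDomain_single]

lemma piHom_single {v l r : ℚ} (hl : l < v) (hr : v < r) (b c : SignType)
    (m : (fibRaw v l r b c).mon) (a : k) :
    piHom k hl hr b c (Ideal.Quotient.mk _ (AddMonoidAlgebra.single m a)) =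
      a • faceVal k v b c m.1 := by
  simp only [piHom, Ideal.Quotient.lift_mk, AlgHom.toRingHom_eq_coe, RingHom.coe_coe]
  rw [AddMonoidAlgebra.lift_single]
  rfl

lemma torMap_faceVal {v l r : ℚ} (hl : l < v) (hr : v < r) {b c b' c' : SignType}
    (hb : Sub b b') (hc : Sub c c') (m : (fibRaw v l r b c).mon) :
    torMap k hb hc (faceVal k v b c m.1) = faceVal k v b' c' m.1 := by
  by_cases h0 : (m.1.2.2.1 : ℚ) * v + m.1.2.2.2 = 0
  · rw [faceVal, if_pos h0, faceVal, if_pos h0, torMap_chi hb hc (fib_face_mem hl hr m.2 h0).1]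
  · rw [faceVal, if_neg h0, faceVal, if_neg h0, map_zero]

lemma torMap_smul {b c b' c' : SignType} (hb : Sub b b') (hc : Sub c c') (a : k)
    (f : TorRing k b c) : torMap k hb hc (a • f) = a • torMap k hb hc f := by
  rw [Algebra.smul_def, map_mul, Algebra.smul_def]
  congr 1
  exact torMap_single k hb hc 0 a

lemma square {S : Subdiv} {v l r : ℚ} (h : Adm S v l r) {b c b' c' : SignType}
    (hb : Sub b b') (hc : Sub c c') :
    (torMap k hb hc).comp (piC k h b c) =
      (piC k h b' c').comp (ringMap k (fib_isHom (v := v) (l := l) (r := r) hb hc)) := by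
  have key : ∀ (m : (fibRaw v l r b c).mon) (a : k),
      torMap k hb hc (piHom k h.lv h.vr b c
        (Ideal.Quotient.mk _ (AddMonoidAlgebra.single m a))) =
      piHom k h.lv h.vr b' c' (ringMap k (fib_isHom (v := v) (l := l) (r := r) hb hc)
        (Ideal.Quotient.mk _ (AddMonoidAlgebra.single m a))) := by
    intro m a
    rw [ringMap_single, piHom_single, piHom_single, torMap_smul, torMap_faceVal k h.lv h.vr]
    congr 2
    exact (deck_zero m.1).symm
  apply Ideal.Quotient.ringHom_ext
  apply AddMonoidAlgebra.ringHom_ext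
  · intro a
    exact key 0 a
  · intro m
    exact key m 1

end ring

lemma exists_semi {A B C M N P : Type} [CommRing A] [CommRing B] [CommRing C]
    [AddCommGroup M] [Module A M] [AddCommGroup N] [Module B N] [AddCommGroup P] [Module C P]
    {ρ : A →+* B} (ρ' : B →+* C) {φ : M →+ N} (h : IsBC ρ φ) (g : M →+ P)
    (hg : ∀ a e, g (a • e) = ρ' (ρ a) • g e) :
    ∃ G : N →+ P, (∀ b n, G (b • n) = ρ' b • G n) ∧ ∀ e, G (φ e) = g e := by
  let _ : Module B P := Module.compHom P ρ'
  exact ⟨(h.lift g hg).toAddMonoidHom, fun b n => (h.lift g hg).map_smul b n,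
    fun e => h.lift_apply g hg e⟩

theorem rexist : RExist := by
  intro k _ S E v l r h
  choose N gN mN φ hbc using fun b c => IsBC.exists_tensor (piC k h b c) (E.mod (fibChart h b c))
  have hres : ∀ {b c b' c' : SignType} (hb : Sub b b') (hc : Sub c c'),
      ∃ G : N b c →+ N b' c', (∀ a n, G (a • n) = torMap k hb hc a • G n) ∧
        ∀ e, G (φ b c e) = φ b' c'
          (E.res (x := fibChart h b c) (y := fibChart h b' c') (fib_isHom hb hc) e) := by
    intro b c b' c' hb hc
    have hh : IsHom 0 (fibChart h b c).1 (fibChart h b' c').1 := fib_isHom hb hc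
    refine exists_semi (torMap k hb hc) (hbc b c) ((φ b' c').comp (E.res hh)) ?_
    intro a e
    have h1 : torMap k hb hc (piC k h b c a) = piC k h b' c' (ringMap k hh a) :=
      congrArg (fun f => f a) (square k h hb hc)
    have h2 : E.res hh (a • e) = ringMap k hh a • E.res hh e := (E.res_bc hh).1 a e
    change φ b' c' (E.res hh (a • e)) = torMap k hb hc (piC k h b c a) • φ b' c' (E.res hh e)
    rw [h1, h2, (hbc b' c').1]
  choose res hres1 hres2 using @hres
  have hrbc : ∀ {b c b' c' : SignType} (hb : Sub b b') (hc : Sub c c'),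
      IsBC (torMap k hb hc) (res hb hc) := by
    intro b c b' c' hb hc
    refine (hbc b c).cancel ?_ (hres1 hb hc)
    rw [square k h hb hc]
    have h1 : (res hb hc).comp (φ b c) = (φ b' c').comp
        (E.res (x := fibChart h b c) (y := fibChart h b' c') (fib_isHom hb hc)) :=
      AddMonoidHom.ext (hres2 hb hc)
    rw [h1]
    exact (E.res_bc (x := fibChart h b c) (y := fibChart h b' c') (fib_isHom hb hc)).comp
      (hbc b' c')
  refine ⟨{ mod := N, grp := gN, module := mN,
            finite := fun b c => (hbc b c).finite,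
            projective := fun b c => (hbc b c).projective,
            res := res,
            res_bc := hrbc,
            res_refl := ?_,
            res_comp := ?_ }, φ, ⟨hbc, ?_⟩⟩
  · intro b c w
    refine (hbc b c).ext_semi (ρ' := torMap k (Sub.refl b) (Sub.refl c))
      (G := res (Sub.refl b) (Sub.refl c)) (G' := AddMonoidHom.id _) (hres1 _ _) ?_ ?_ w
    · intro a n
      rw [torMap_refl]
      rfl
    · intro e
      rw [hres2]
      exact congrArg (φ b c) (E.res_refl (fibChart h b c) e)
  · intro b c b' c' b'' c'' hb hc hb' hc' w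
    refine (hbc b c).ext_semi (ρ' := torMap k (hb.trans hb') (hc.trans hc'))
      (G := (res hb' hc').comp (res hb hc)) (G' := res (hb.trans hb') (hc.trans hc'))
      ?_ (hres1 _ _) ?_ w
    · intro a n
      rw [torMap_comp k hb hc hb' hc', AddMonoidHom.comp_apply, AddMonoidHom.comp_apply, hres1,
        hres1]
      rfl
    · intro e
      rw [AddMonoidHom.comp_apply, hres2, hres2, hres2]
      exact congrArg (φ b'' c'') (E.res_comp (x := fibChart h b c) (y := fibChart h b' c')
        (z := fibChart h b'' c'') (fib_isHom hb hc) (fib_isHom hb' hc') e)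
  · intro b c b' c' hb hc e
    exact (hres2 hb hc e).symm

end Pool.Agent.W101.LG
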